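import Pool.Agent.Lib_helper34.BB.Defs

/-!
# BIN: the binomial inequality in the limit
-/

open MeasureTheory ProbabilityTheory Set Metric Function
open scoped ENNReal NNReal

namespace Pool.Agent.BB

open Filter Topology in
theorem bin_ratio (M u : ℕ) (hu : u ≤ M) (hM : 0 < M) :
    ((M - u).choose u : ℝ) ≤ (1 - u / M) ^ u * (M.choose u : ℝ) := by
  have hM' : (0 : ℝ) < M := by exact_mod_cast hM
  have hu' : (u : ℝ) ≤ M := by exact_mod_cast hu
  have h1 : (0 : ℝ) ≤ 1 - u / M := by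
    rw [sub_nonneg, div_le_one hM']
    exact hu'
  have hdesc : ((M - u).descFactorial u : ℝ) ≤ (1 - u / M) ^ u * (M.descFactorial u : ℝ) := by
    rw [Nat.descFactorial_eq_prod_range, Nat.descFactorial_eq_prod_range]
    push_cast
    have e : (1 - (u : ℝ) / M) ^ u = ∏ _i ∈ Finset.range u, (1 - (u : ℝ) / M) := by
      rw [Finset.prod_const, Finset.card_range]
    rw [e, ← Finset.prod_mul_distrib]
    refine Finset.prod_le_prod (fun i _ => Nat.cast_nonneg _) fun i hi => ?_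
    have hi' : i < u := Finset.mem_range.mp hi
    have hiM : i ≤ M := by omega
    have h2 : ((M - i : ℕ) : ℝ) = M - i := by rw [Nat.cast_sub hiM]
    rw [h2]
    rcases le_or_gt i (M - u) with h3 | h3
    · have h4 : ((M - u - i : ℕ) : ℝ) = M - u - i := by
        rw [Nat.cast_sub h3, Nat.cast_sub hu]
      rw [h4]
      have h5 : (1 - (u : ℝ) / M) * (M - i) = M - u - i + u * i / M := by
        field_simp
        ring
      rw [h5]
      have : (0 : ℝ) ≤ u * i / M := by positivity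
      linarith
    · have h4 : M - u - i = 0 := by omega
      rw [h4, Nat.cast_zero]
      refine mul_nonneg h1 ?_
      rw [sub_nonneg]
      exact_mod_cast hiM
  have h6 : ∀ a b : ℕ, (a.descFactorial b : ℝ) = b.factorial * (a.choose b : ℝ) := by
    intro a b
    rw [Nat.descFactorial_eq_factorial_mul_choose]
    push_cast
    ring
  rw [h6, h6] at hdesc
  have h7 : (0 : ℝ) < u.factorial := by exact_mod_cast Nat.factorial_pos u
  refine le_of_mul_le_mul_left ?_ h7
  calc (u.factorial : ℝ) * ((M - u).choose u : ℝ)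
      ≤ (1 - u / M) ^ u * (u.factorial * (M.choose u : ℝ)) := hdesc
    _ = u.factorial * ((1 - u / M) ^ u * (M.choose u : ℝ)) := by ring

theorem bin_finite (M m w : ℕ) (hm : 0 < m) (hu : w * m ≤ M) (hM : 0 < M)
    (h : M.choose (w * m) ≤ M.choose m * (M - w * m).choose (w * m)) :
    (w : ℝ) ^ 2 * ((m : ℝ) / M) ≤ 1 + Real.log (1 / ((m : ℝ) / M)) := by
  have hM' : (0 : ℝ) < M := by exact_mod_cast hM
  have hm' : (0 : ℝ) < m := by exact_mod_cast hm
  set u := w * m with hudef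
  have hu' : (u : ℝ) ≤ M := by exact_mod_cast hu
  have hC : (0 : ℝ) < M.choose u := by exact_mod_cast Nat.choose_pos hu
  have h1 : (M.choose u : ℝ) ≤ (M.choose m : ℝ) * ((1 - u / M) ^ u * (M.choose u : ℝ)) := by
    have : (M.choose u : ℝ) ≤ (M.choose m : ℝ) * ((M - u).choose u : ℝ) := by
      exact_mod_cast h
    exact this.trans (mul_le_mul_of_nonneg_left (bin_ratio M u hu hM) (Nat.cast_nonneg _))
  have h2 : (1 : ℝ) ≤ (M.choose m : ℝ) * (1 - u / M) ^ u := by
    refine le_of_mul_le_mul_right ?_ hC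
    calc 1 * (M.choose u : ℝ) = (M.choose u : ℝ) := one_mul _
      _ ≤ _ := h1
      _ = (M.choose m : ℝ) * (1 - u / M) ^ u * (M.choose u : ℝ) := by ring
  have h3 : (1 - (u : ℝ) / M) ^ u ≤ Real.exp (-((u : ℝ) ^ 2 / M)) := by
    have h4 : (0 : ℝ) ≤ 1 - u / M := by
      rw [sub_nonneg, div_le_one hM']
      exact hu'
    have h5 : 1 - (u : ℝ) / M ≤ Real.exp (-((u : ℝ) / M)) := by
      have := Real.add_one_le_exp (-((u : ℝ) / M))
      linarith
    calc (1 - (u : ℝ) / M) ^ u ≤ (Real.exp (-((u : ℝ) / M))) ^ u := pow_le_pow_left₀ h4 h5 u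
      _ = Real.exp (-((u : ℝ) ^ 2 / M)) := by
          rw [← Real.exp_nat_mul]
          congr 1
          ring
  have hmf : (0 : ℝ) < m.factorial := by exact_mod_cast Nat.factorial_pos m
  have h6 : (M.choose m : ℝ) ≤ (M : ℝ) ^ m / m.factorial := Nat.choose_le_pow_div m M
  have h7 : (m : ℝ) ^ m / m.factorial ≤ Real.exp m := Real.pow_div_factorial_le_exp _ hm'.le m
  have h8 : (1 : ℝ) ≤ (M : ℝ) ^ m / m.factorial * Real.exp (-((u : ℝ) ^ 2 / M)) :=
    h2.trans (mul_le_mul h6 h3 (by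
      have h4 : (0 : ℝ) ≤ 1 - u / M := by
        rw [sub_nonneg, div_le_one hM']
        exact hu'
      positivity) (by positivity))
  have h9 := Real.log_le_log one_pos h8
  rw [Real.log_one, Real.log_mul (by positivity) (Real.exp_pos _).ne', Real.log_exp,
    Real.log_div (by positivity) hmf.ne', Real.log_pow] at h9
  have h10 := Real.log_le_log (by positivity) h7
  rw [Real.log_exp, Real.log_div (by positivity) hmf.ne', Real.log_pow] at h10
  have h11 : (u : ℝ) ^ 2 / M ≤ m * (Real.log M - Real.log m + 1) := by linarith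
  have h12 : (u : ℝ) ^ 2 / M = m * ((w : ℝ) ^ 2 * ((m : ℝ) / M)) := by
    rw [hudef]
    push_cast
    ring
  rw [h12] at h11
  have h13 := le_of_mul_le_mul_left h11 hm'
  rw [one_div, Real.log_inv, Real.log_div hm'.ne' hM'.ne']
  linarith

open Filter Topology in
/-- BIN: the binomial inequality in the limit -/
theorem bin_proof (w : ℕ) (hw : 1 ≤ w) (p : ℝ) (hp : 0 < p) (hp1 : p ≤ 1)
    (h : ∀ ε : ℝ, 0 < ε → ∃ M₀ : ℕ, ∀ M : ℕ, M₀ ≤ M → w * ⌊(p - ε) * M⌋₊ ≤ M ∧
      M.choose (w * ⌊(p - ε) * M⌋₊) ≤ M.choose ⌊(p - ε) * M⌋₊ *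
        (M - w * ⌊(p - ε) * M⌋₊).choose (w * ⌊(p - ε) * M⌋₊)) :
    p * (w : ℝ) ^ 2 ≤ 1 + Real.log (1 / p) := by
  have step : ∀ ε : ℝ, 0 < ε → ε < p →
      (w : ℝ) ^ 2 * (p - ε) ≤ 1 + Real.log (1 / (p - ε)) := by
    intro ε hε hεp
    have ha : 0 < p - ε := by linarith
    obtain ⟨M₀, hM₀⟩ := h ε hε
    have hlim : Tendsto (fun M : ℕ => ((⌊(p - ε) * M⌋₊ : ℕ) : ℝ) / M) atTop (𝓝 (p - ε)) :=
      (tendsto_nat_floor_mul_div_atTop ha.le).comp tendsto_natCast_atTop_atTop
    have l1 : Tendsto (fun M : ℕ => (w : ℝ) ^ 2 * (((⌊(p - ε) * M⌋₊ : ℕ) : ℝ) / M)) atTop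
        (𝓝 ((w : ℝ) ^ 2 * (p - ε))) := hlim.const_mul _
    have l2 : Tendsto (fun M : ℕ => 1 + Real.log (1 / (((⌊(p - ε) * M⌋₊ : ℕ) : ℝ) / M))) atTop
        (𝓝 (1 + Real.log (1 / (p - ε)))) := by
      refine tendsto_const_nhds.add ?_
      have hc : ContinuousAt (fun x : ℝ => Real.log (1 / x)) (p - ε) :=
        ContinuousAt.log (continuousAt_const.div continuousAt_id ha.ne')
          (one_div_pos.mpr ha).ne'
      exact hc.tendsto.comp hlim
    refine le_of_tendsto_of_tendsto l1 l2 ?_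
    have hbig : ∀ᶠ M : ℕ in atTop, 1 / (p - ε) ≤ (M : ℝ) :=
      tendsto_natCast_atTop_atTop.eventually_ge_atTop _
    filter_upwards [eventually_ge_atTop M₀, eventually_gt_atTop 0, hbig] with M h1 h2 h3
    obtain ⟨g1, g2⟩ := hM₀ M h1
    refine bin_finite M _ w ?_ g1 h2 g2
    rw [Nat.floor_pos]
    rw [div_le_iff₀ ha] at h3
    linarith
  have l1 : Tendsto (fun ε : ℝ => (w : ℝ) ^ 2 * (p - ε)) (𝓝[>] 0) (𝓝 ((w : ℝ) ^ 2 * (p - 0))) :=
    ((continuous_const.mul (continuous_const.sub continuous_id)).tendsto 0).mono_left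
      nhdsWithin_le_nhds
  have l2 : Tendsto (fun ε : ℝ => 1 + Real.log (1 / (p - ε))) (𝓝[>] 0)
      (𝓝 (1 + Real.log (1 / (p - 0)))) := by
    have hc : ContinuousAt (fun ε : ℝ => 1 + Real.log (1 / (p - ε))) 0 := by
      refine continuousAt_const.add (ContinuousAt.log (continuousAt_const.div
        (continuousAt_const.sub continuousAt_id) (by simpa using hp.ne')) ?_)
      simpa using hp.ne'
    exact hc.tendsto.mono_left nhdsWithin_le_nhds
  have h3 : (w : ℝ) ^ 2 * (p - 0) ≤ 1 + Real.log (1 / (p - 0)) := by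
    refine le_of_tendsto_of_tendsto l1 l2 ?_
    have : ∀ᶠ ε : ℝ in 𝓝[>] 0, ε ∈ Set.Ioo (0 : ℝ) p := Ioo_mem_nhdsGT hp
    filter_upwards [this] with ε hε
    exact step ε hε.1 hε.2
  rw [sub_zero] at h3
  linarith

end Pool.Agent.BB
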