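import Pool.Agent.Lib_helper34.BB.Defs

/-!
# GROW: counting words by cost
-/

open MeasureTheory ProbabilityTheory Set Metric Function
open scoped ENNReal NNReal

namespace Pool.Agent.BB

theorem grow_step {β : Type} [Fintype β] [DecidableEq β] (m : β → β → ℝ)
    (hm : ∀ i j, 2 ≤ m i j) (δ : ℝ) (hδ : 0 < δ) (hsum : ∀ i, 1 ≤ ∑ j, (m i j) ^ (-δ))
    (Mx : ℝ) (hMx : ∀ i j, m i j ≤ Mx) (hMx2 : 2 ≤ Mx) (k : ℕ) :
    ∀ T : ℝ, 1 ≤ T → T ≤ 2 ^ k → ∀ i : β, ∃ S : Finset (List β),
      Mx ^ (-δ) * T ^ δ ≤ S.card ∧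
      ∀ l ∈ S, ∃ l' : List β, l = i :: l' ∧ ((i :: l').zipWith m l').prod ≤ T := by
  induction k with
  | zero =>
    intro T hT hT2 i
    refine ⟨{[i]}, ?_, ?_⟩
    · have hT1 : T = 1 := le_antisymm (by simpa using hT2) hT
      rw [hT1, Real.one_rpow, mul_one, Finset.card_singleton, Nat.cast_one]
      exact Real.rpow_le_one_of_one_le_of_nonpos (by linarith) (by linarith)
    · intro l hl
      rw [Finset.mem_singleton] at hl
      exact ⟨[], hl, by simpa using hT⟩
  | succ k ih =>
    intro T hT hT2 i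
    rcases lt_or_ge T Mx with hlt | hge
    · refine ⟨{[i]}, ?_, ?_⟩
      · rw [Finset.card_singleton, Nat.cast_one]
        have h1 : T ^ δ ≤ Mx ^ δ := Real.rpow_le_rpow (by linarith) hlt.le hδ.le
        calc Mx ^ (-δ) * T ^ δ ≤ Mx ^ (-δ) * Mx ^ δ :=
              mul_le_mul_of_nonneg_left h1 (Real.rpow_nonneg (by linarith) _)
          _ = 1 := by rw [← Real.rpow_add (by linarith), neg_add_cancel, Real.rpow_zero]
      · intro l hl
        rw [Finset.mem_singleton] at hl
        exact ⟨[], hl, by simpa using hT⟩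
    · have hmpos : ∀ j, 0 < m i j := fun j => lt_of_lt_of_le two_pos (hm i j)
      have h1 : ∀ j, 1 ≤ T / m i j := fun j => by
        rw [le_div_iff₀ (hmpos j), one_mul]
        exact (hMx i j).trans hge
      have h2 : ∀ j, T / m i j ≤ 2 ^ k := fun j => by
        rw [div_le_iff₀ (hmpos j)]
        calc T ≤ 2 ^ (k + 1) := hT2
          _ = 2 ^ k * 2 := by rw [pow_succ]
          _ ≤ 2 ^ k * m i j := mul_le_mul_of_nonneg_left (hm i j) (by positivity)
      choose S hS1 hS2 using fun j => ih (T / m i j) (h1 j) (h2 j) j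
      refine ⟨Finset.univ.biUnion (fun j => (S j).image (List.cons i)), ?_, ?_⟩
      · have hcard : (Finset.univ.biUnion (fun j => (S j).image (List.cons i))).card =
            ∑ j, (S j).card := by
          rw [Finset.card_biUnion]
          · refine Finset.sum_congr rfl fun j _ => ?_
            exact Finset.card_image_of_injective _ (List.cons_injective)
          · intro j _ j' _ hjj'
            rw [Function.onFun, Finset.disjoint_left]
            intro l hl hl'
            rw [Finset.mem_image] at hl hl'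
            obtain ⟨a, ha, rfl⟩ := hl
            obtain ⟨b, hb, hab⟩ := hl'
            have hab' : b = a := (List.cons_inj_right i).mp hab
            subst hab'
            obtain ⟨l1, e1, -⟩ := hS2 j b ha
            obtain ⟨l2, e2, -⟩ := hS2 j' b hb
            rw [e1] at e2
            exact hjj' (List.cons_eq_cons.mp e2).1
        rw [hcard]
        push_cast
        calc Mx ^ (-δ) * T ^ δ ≤ Mx ^ (-δ) * T ^ δ * ∑ j, (m i j) ^ (-δ) := by
              have h3 : 0 ≤ Mx ^ (-δ) * T ^ δ :=
                mul_nonneg (Real.rpow_nonneg (by linarith) _) (Real.rpow_nonneg (by linarith) _)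
              nlinarith [hsum i]
          _ = ∑ j, Mx ^ (-δ) * (T / m i j) ^ δ := by
              rw [Finset.mul_sum]
              refine Finset.sum_congr rfl fun j _ => ?_
              rw [Real.div_rpow (by linarith) (hmpos j).le, Real.rpow_neg (hmpos j).le]
              ring
          _ ≤ ∑ j, ((S j).card : ℝ) := Finset.sum_le_sum fun j _ => hS1 j
      · intro l hl
        rw [Finset.mem_biUnion] at hl
        obtain ⟨j, -, hl⟩ := hl
        rw [Finset.mem_image] at hl
        obtain ⟨a, ha, rfl⟩ := hl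
        obtain ⟨l1, rfl, h3⟩ := hS2 j a ha
        refine ⟨j :: l1, rfl, ?_⟩
        rw [List.zipWith_cons_cons, List.prod_cons]
        calc m i j * ((j :: l1).zipWith m l1).prod ≤ m i j * (T / m i j) :=
              mul_le_mul_of_nonneg_left h3 (hmpos j).le
          _ = T := by
              field_simp [(hmpos j).ne']

/-- GROW: counting words by cost -/
theorem grow_proof {β : Type} [Fintype β] [DecidableEq β] [Nonempty β] (m : β → β → ℝ)
    (hm : ∀ i j, 2 ≤ m i j) (δ : ℝ) (hδ : 0 < δ) (hsum : ∀ i, 1 ≤ ∑ j, (m i j) ^ (-δ)) :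
    ∃ c > 0, ∀ T : ℝ, 1 ≤ T → ∃ S : Finset (List β), c * T ^ δ ≤ S.card ∧
      ∀ l ∈ S, ∃ (i : β) (l' : List β), l = i :: l' ∧ ((i :: l').zipWith m l').prod ≤ T := by
  have h0 : ∀ i j, 0 ≤ m i j := fun i j => le_trans two_pos.le (hm i j)
  have hMx : ∀ i j, m i j ≤ ∑ i, ∑ j, m i j := fun i j =>
    (Finset.single_le_sum (f := fun j => m i j) (fun j _ => h0 i j) (Finset.mem_univ j)).trans
      (Finset.single_le_sum (f := fun i => ∑ j, m i j)
        (fun i _ => Finset.sum_nonneg fun j _ => h0 i j) (Finset.mem_univ i))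
  have i0 : β := Classical.arbitrary β
  have hMx2 : 2 ≤ ∑ i, ∑ j, m i j := (hm i0 i0).trans (hMx i0 i0)
  refine ⟨(∑ i, ∑ j, m i j) ^ (-δ), Real.rpow_pos_of_pos (by linarith) _, fun T hT => ?_⟩
  obtain ⟨k, hk⟩ := pow_unbounded_of_one_lt T (one_lt_two)
  obtain ⟨S, hS1, hS2⟩ := grow_step m hm δ hδ hsum _ hMx hMx2 k T hT hk.le i0
  refine ⟨S, hS1, fun l hl => ?_⟩
  obtain ⟨l', e, h⟩ := hS2 l hl
  exact ⟨i0, l', e, h⟩

end Pool.Agent.BB
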